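import Mathlib

set_option autoImplicit false

namespace Pool.Agent.Results.MP_5a868e_co.NotPartitionRegular

open MvPolynomial

/-- `P d`: the nonzero polynomials in the commuting indeterminates `x_0, x_1, x_2, …` with
coefficients in `ℕ`, zero constant term, and degree at most `d` in each single variable. -/
def P (d : ℕ) : Set (MvPolynomial ℕ ℕ) :=
  {f | f ≠ 0 ∧ MvPolynomial.constantCoeff f = 0 ∧ ∀ i : ℕ, MvPolynomial.degreeOf i f ≤ d}

/-- A colouring `c` of `P d` has a monochromatic `{x, y, x + y, x y}`: there are `x, y` with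
`x, y, x + y, x * y` all in `P d` and all of one colour. -/
def HasMonochromatic (d r : ℕ) (c : P d → Fin r) : Prop :=
  ∃ (x y : MvPolynomial ℕ ℕ) (hx : x ∈ P d) (hy : y ∈ P d) (hs : x + y ∈ P d) (hp : x * y ∈ P d),
    c ⟨x, hx⟩ = c ⟨y, hy⟩ ∧ c ⟨x, hx⟩ = c ⟨x + y, hs⟩ ∧ c ⟨x, hx⟩ = c ⟨x * y, hp⟩

/-- The largest exponent occurring in a polynomial. -/
noncomputable def D (f : MvPolynomial ℕ ℕ) : ℕ :=
  f.support.sup (fun m => m.support.sup (fun i => m i))

lemma le_D {f : MvPolynomial ℕ ℕ} {m : ℕ →₀ ℕ} (hm : m ∈ f.support) (i : ℕ) : m i ≤ D f := by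
  by_cases hi : m i = 0
  · omega
  · have h1 : m i ≤ m.support.sup (fun i => m i) :=
      Finset.le_sup (f := fun i => m i) (Finsupp.mem_support_iff.mpr hi)
    have h2 : m.support.sup (fun i => m i) ≤ D f :=
      Finset.le_sup (f := fun m : ℕ →₀ ℕ => m.support.sup (fun i => m i)) hm
    exact h1.trans h2

lemma exists_D {f : MvPolynomial ℕ ℕ} (hf : f ≠ 0) (h0 : constantCoeff f = 0) :
    ∃ m ∈ f.support, ∃ i, m i = D f ∧ 1 ≤ D f := by
  have hne : f.support.Nonempty := by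
    rw [Finset.nonempty_iff_ne_empty]
    intro h
    exact hf (MvPolynomial.support_eq_empty.mp h)
  obtain ⟨m, hm, hmD⟩ := Finset.exists_mem_eq_sup f.support hne
    (fun m : ℕ →₀ ℕ => m.support.sup (fun i => m i))
  have hm0 : m ≠ 0 := by
    rintro rfl
    rw [MvPolynomial.mem_support_iff] at hm
    exact hm h0
  have hms : m.support.Nonempty := Finsupp.support_nonempty_iff.mpr hm0
  obtain ⟨i, hi, hiD⟩ := Finset.exists_mem_eq_sup m.support hms (fun i => m i)
  have e : m i = D f := by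
    unfold D
    rw [hmD, hiD]
  refine ⟨m, hm, i, e, ?_⟩
  have := Finsupp.mem_support_iff.mp hi
  omega

lemma D_le {f : MvPolynomial ℕ ℕ} {d : ℕ} (h : ∀ i : ℕ, MvPolynomial.degreeOf i f ≤ d) :
    D f ≤ d := by
  unfold D
  apply Finset.sup_le
  intro m hm
  apply Finset.sup_le
  intro i hi
  refine le_trans ?_ (h i)
  rw [MvPolynomial.degreeOf_eq_sup]
  exact Finset.le_sup (f := fun m : ℕ →₀ ℕ => m i) hm

lemma mem_support_add {f g : MvPolynomial ℕ ℕ} {m : ℕ →₀ ℕ} :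
    m ∈ (f + g).support ↔ m ∈ f.support ∨ m ∈ g.support := by
  simp only [MvPolynomial.mem_support_iff, MvPolynomial.coeff_add]
  omega

lemma mem_support_mul {f g : MvPolynomial ℕ ℕ} {m : ℕ →₀ ℕ} :
    m ∈ (f * g).support ↔ ∃ a ∈ f.support, ∃ b ∈ g.support, m = a + b := by
  classical
  constructor
  · intro h
    have := MvPolynomial.support_mul f g h
    rw [Finset.mem_add] at this
    obtain ⟨a, ha, b, hb, hab⟩ := this
    exact ⟨a, ha, b, hb, hab.symm⟩
  · rintro ⟨a, ha, b, hb, rfl⟩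
    rw [MvPolynomial.mem_support_iff, MvPolynomial.coeff_mul]
    rw [MvPolynomial.mem_support_iff] at ha hb
    have hpos : 0 < coeff a f * coeff b g :=
      Nat.mul_pos (Nat.pos_of_ne_zero ha) (Nat.pos_of_ne_zero hb)
    have hle : coeff a f * coeff b g ≤
        ∑ x ∈ Finset.HasAntidiagonal.antidiagonal (a + b), coeff x.1 f * coeff x.2 g :=
      Finset.single_le_sum (f := fun x : (ℕ →₀ ℕ) × (ℕ →₀ ℕ) => coeff x.1 f * coeff x.2 g)
        (fun _ _ => Nat.zero_le _)
        (Finset.HasAntidiagonal.mem_antidiagonal.mpr (rfl : (a, b).1 + (a, b).2 = a + b))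
    omega

/-- The combinatorial core, stated with supports: one of the two symmetric cases. -/
lemma core {x y a b : MvPolynomial ℕ ℕ} {N : ℕ} (hN : 1 ≤ N)
    (hxy : ∀ m ∈ x.support, ∀ m' ∈ y.support, ∀ i, m i + m' i ≤ N)
    (hsum : ∀ m : ℕ →₀ ℕ, (m ∈ x.support ∨ m ∈ y.support) ↔
      ∃ p ∈ a.support, ∃ q ∈ b.support, m = p + q)
    {y₀ : ℕ →₀ ℕ} (hy₀ : y₀ ∈ y.support) {k : ℕ} (hk : y₀ k = N)
    {a₀ : ℕ →₀ ℕ} (ha₀ : a₀ ∈ a.support) {i : ℕ} (hi : a₀ i = N)
    {b₀ : ℕ →₀ ℕ} (hb₀ : b₀ ∈ b.support) {j : ℕ} (hj : b₀ j = N)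
    (hx : a₀ + b₀ ∈ x.support) : False := by
  -- all monomials of `y` avoid the variables `i` and `j`
  have hyi : ∀ m' ∈ y.support, m' i = 0 := by
    intro m' hm'
    have := hxy _ hx m' hm' i
    rw [Finsupp.add_apply] at this
    omega
  have hyj : ∀ m' ∈ y.support, m' j = 0 := by
    intro m' hm'
    have := hxy _ hx m' hm' j
    rw [Finsupp.add_apply] at this
    omega
  have hxk : ∀ m ∈ x.support, m k = 0 := by
    intro m hm
    have := hxy m hm y₀ hy₀ k
    omega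
  obtain ⟨p, hp, q, hq, hpq⟩ := (hsum y₀).mp (Or.inr hy₀)
  have h1 : p + b₀ ∈ x.support := by
    rcases (hsum (p + b₀)).mpr ⟨p, hp, b₀, hb₀, rfl⟩ with h | h
    · exact h
    · have := hyj _ h
      rw [Finsupp.add_apply] at this
      omega
  have h2 : a₀ + q ∈ x.support := by
    rcases (hsum (a₀ + q)).mpr ⟨a₀, ha₀, q, hq, rfl⟩ with h | h
    · exact h
    · have := hyi _ h
      rw [Finsupp.add_apply] at this
      omega
  have h3 := hxk _ h1
  have h4 := hxk _ h2
  rw [Finsupp.add_apply] at h3 h4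
  rw [hpq, Finsupp.add_apply] at hk
  omega

/-- `f` is a product of two elements of `P d` with the same largest exponent as `f`. -/
def Splits (d : ℕ) (f : MvPolynomial ℕ ℕ) : Prop :=
  ∃ a ∈ P d, ∃ b ∈ P d, f = a * b ∧ D a = D f ∧ D b = D f

lemma main_false {d : ℕ} {x y : MvPolynomial ℕ ℕ} (hx : x ∈ P d) (hy : y ∈ P d)
    (h1 : D x = D y) (h2 : D x = D (x + y)) (h3 : D x = D (x * y))
    (hs : Splits d (x + y)) : False := by
  obtain ⟨a, ha, b, hb, hab, hDa, hDb⟩ := hs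
  obtain ⟨x₀, hx₀, kx, hkx, hD1⟩ := exists_D hx.1 hx.2.1
  obtain ⟨y₀, hy₀, ky, hky, -⟩ := exists_D hy.1 hy.2.1
  obtain ⟨a₀, ha₀, i, hi, -⟩ := exists_D ha.1 ha.2.1
  obtain ⟨b₀, hb₀, j, hj, -⟩ := exists_D hb.1 hb.2.1
  have hxy : ∀ m ∈ x.support, ∀ m' ∈ y.support, ∀ i, m i + m' i ≤ D x := by
    intro m hm m' hm' i
    have : m + m' ∈ (x * y).support := mem_support_mul.mpr ⟨m, hm, m', hm', rfl⟩
    have := le_D this i
    rw [Finsupp.add_apply] at this
    omega
  have hsum : ∀ m : ℕ →₀ ℕ, (m ∈ x.support ∨ m ∈ y.support) ↔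
      ∃ p ∈ a.support, ∃ q ∈ b.support, m = p + q := by
    intro m
    rw [← mem_support_add, hab, mem_support_mul]
  rcases (hsum (a₀ + b₀)).mpr ⟨a₀, ha₀, b₀, hb₀, rfl⟩ with h | h
  · exact core hD1 hxy hsum hy₀ (k := ky) (by omega) ha₀ (i := i) (by omega) hb₀ (j := j)
      (by omega) h
  · refine core (x := y) (y := x) hD1 ?_ ?_ hx₀ (k := kx) (by omega) ha₀ (i := i) (by omega) hb₀
      (j := j) (by omega) h
    · intro m hm m' hm' i
      have := hxy m' hm' m hm i
      omega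
    · intro m
      rw [or_comm]
      exact hsum m

/-- **Main result.** For every `d ≥ 2` the pattern `{x, y, x + y, x y}` is not partition regular
over `P d`; in fact some colouring of `P d` with `2 d` colours has no monochromatic
`{x, y, x + y, x y}`. -/
theorem result : ∀ d : ℕ, 2 ≤ d → ∃ c : P d → Fin (2 * d), ¬ HasMonochromatic d (2 * d) c := by
  classical
  intro d hd
  have hlt : ∀ f : P d, 2 * (D f.1 - 1) + (if Splits d f.1 then 1 else 0) < 2 * d := by
    intro f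
    have h1 := D_le f.2.2.2
    obtain ⟨-, -, -, -, h2⟩ := exists_D f.2.1 f.2.2.1
    split_ifs <;> omega
  refine ⟨fun f => ⟨2 * (D f.1 - 1) + (if Splits d f.1 then 1 else 0), hlt f⟩, ?_⟩
  rintro ⟨x, y, hx, hy, hs, hp, h1, h2, h3⟩
  simp only [Fin.mk.injEq] at h1 h2 h3
  obtain ⟨-, -, -, -, dx⟩ := exists_D hx.1 hx.2.1
  obtain ⟨-, -, -, -, dy⟩ := exists_D hy.1 hy.2.1
  obtain ⟨-, -, -, -, ds⟩ := exists_D hs.1 hs.2.1
  obtain ⟨-, -, -, -, dp⟩ := exists_D hp.1 hp.2.1
  have e1 : D x = D y := by split_ifs at h1 <;> omega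
  have e2 : D x = D (x + y) := by split_ifs at h2 <;> omega
  have e3 : D x = D (x * y) := by split_ifs at h3 <;> omega
  have sp : Splits d (x * y) := ⟨x, hx, y, hy, rfl, e3, by omega⟩
  have ss : Splits d (x + y) := by
    rw [if_pos sp] at h3
    by_contra hns
    rw [if_neg hns] at h2
    split_ifs at h2 h3 <;> omega
  exact main_false hx hy e1 e2 e3 ss

end Pool.Agent.Results.MP_5a868e_co.NotPartitionRegular
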